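import Pool.Agent.R694.RC.Tame

set_option autoImplicit false
set_option linter.unusedSectionVars false

/-!
# Kelly's lemma for the numbers of witnesses of tuples, and gaps
-/

namespace Pool.Agent.Run7.h110.RG

open Finset Classical
open Pool.Agent.H234RC (Hypo NonIso Reconstructible)
open Pool.Agent.R694.RC

variable {V : Type} [Fintype V]

/-- the number of the `z` outside the tuple `x` with `R x z` -/
noncomputable def wit {k : ℕ} (R : (Fin k → V) → V → Prop) (x : Fin k → V) : ℕ :=
  (univ.filter fun z => (∀ i, x i ≠ z) ∧ R x z).card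

/-- the same without `v` -/
noncomputable def witv {k : ℕ} (R : (Fin k → V) → V → Prop) (v : V) (x : Fin k → V) : ℕ :=
  (univ.filter fun z => z ≠ v ∧ (∀ i, x i ≠ z) ∧ R x z).card

/-- relations which correspond to each other on the cards -/
def Tr (π : V → Equiv.Perm V) {k : ℕ} (P P' : (Fin k → V) → Prop) : Prop :=
  ∀ v, ∀ x : Fin k → V, Function.Injective x → (∀ i, x i ≠ v) → (P' (π v ∘ x) ↔ P x)

/-- the same for relations of a tuple and a further vertex -/
def Tr2 (π : V → Equiv.Perm V) {k : ℕ} (R R' : (Fin k → V) → V → Prop) : Prop :=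
  ∀ v, ∀ x : Fin k → V, Function.Injective x → (∀ i, x i ≠ v) → ∀ z, z ≠ v → (∀ i, x i ≠ z) →
    (R' (π v ∘ x) (π v z) ↔ R x z)

theorem wit_split {k : ℕ} (R : (Fin k → V) → V → Prop) (v : V) (x : Fin k → V)
    (hx : ∀ i, x i ≠ v) : wit R x = witv R v x + if R x v then 1 else 0 := by
  unfold wit witv
  have e : (univ.filter fun z => (∀ i, x i ≠ z) ∧ R x z) =
      (univ.filter fun z => z ≠ v ∧ (∀ i, x i ≠ z) ∧ R x z) ∪
        (if R x v then {v} else ∅) := by
    ext z
    simp only [mem_filter, mem_univ, true_and, mem_union]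
    by_cases hz : z = v
    · subst hz
      by_cases hR : R x z
      · simp [hR, hx]
      · simp [hR]
    · by_cases hR : R x v
      · simp [hR, hz]
      · simp [hR, hz]
  rw [e, card_union_of_disjoint]
  · split_ifs <;> simp
  · split_ifs
    · rw [disjoint_singleton_right]; simp
    · simp

theorem witv_map {π : V → Equiv.Perm V} (hfix : ∀ v, π v v = v) {k : ℕ}
    {R R' : (Fin k → V) → V → Prop} (hR : Tr2 π R R') (v : V) (x : Fin k → V)
    (hx : Function.Injective x) (hv : ∀ i, x i ≠ v) : witv R' v (π v ∘ x) = witv R v x := by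
  unfold witv
  symm
  apply Finset.card_equiv (π v)
  intro z
  simp only [mem_filter, mem_univ, true_and, Function.comp_apply]
  have hne : π v z ≠ v ↔ z ≠ v := by
    constructor
    · intro h1 h2
      exact h1 (by rw [h2, hfix])
    · intro h1 h2
      exact h1 ((π v).injective (by rw [h2, hfix]))
  rw [hne]
  constructor
  · rintro ⟨h1, h2, h3⟩
    exact ⟨h1, fun i h => h2 i ((π v).injective h), (hR v x hx hv z h1 h2).mpr h3⟩
  · rintro ⟨h1, h2, h3⟩
    have h4 : ∀ i, x i ≠ z := fun i h => h2 i (by rw [h])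
    exact ⟨h1, h4, (hR v x hx hv z h1 h4).mp h3⟩

/-- the number of injective tuples with `P` and exactly `j` witnesses -/
noncomputable def N {k : ℕ} (P : (Fin k → V) → Prop) (R : (Fin k → V) → V → Prop) (j : ℕ) : ℕ :=
  (univ.filter fun x : Fin k → V => Function.Injective x ∧ P x ∧ wit R x = j).card

/-- the same on the card at `v` -/
noncomputable def Nv {k : ℕ} (P : (Fin k → V) → Prop) (R : (Fin k → V) → V → Prop) (v : V)
    (j : ℕ) : ℕ :=
  (univ.filter fun x : Fin k → V => Function.Injective x ∧ P x ∧ (∀ i, x i ≠ v) ∧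
    witv R v x = j).card

theorem Nv_eq {π : V → Equiv.Perm V} (hfix : ∀ v, π v v = v) {k : ℕ}
    {P P' : (Fin k → V) → Prop} {R R' : (Fin k → V) → V → Prop} (hP : Tr π P P')
    (hR : Tr2 π R R') (v : V) (j : ℕ) : Nv P' R' v j = Nv P R v j := by
  unfold Nv
  symm
  apply Finset.card_equiv ((Equiv.refl (Fin k)).arrowCongr (π v))
  intro x
  have e : ((Equiv.refl (Fin k)).arrowCongr (π v)) x = π v ∘ x := by
    funext i
    simp [Equiv.arrowCongr]
  rw [e]
  simp only [mem_filter, mem_univ, true_and, Function.comp_apply]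
  have hinj : Function.Injective (π v ∘ x) ↔ Function.Injective x := by
    constructor
    · intro h
      exact Function.Injective.of_comp h
    · intro h
      exact (π v).injective.comp h
  have hne : ∀ z, π v z ≠ v ↔ z ≠ v := by
    intro z
    constructor
    · intro h1 h2
      exact h1 (by rw [h2, hfix])
    · intro h1 h2
      exact h1 ((π v).injective (by rw [h2, hfix]))
  rw [hinj]
  simp only [hne]
  constructor
  · rintro ⟨h1, h2, h3, h4⟩
    exact ⟨h1, (hP v x h1 h3).mpr h2, h3, by rw [witv_map hfix hR v x h1 h3]; exact h4⟩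
  · rintro ⟨h1, h2, h3, h4⟩
    exact ⟨h1, (hP v x h1 h3).mp h2, h3, by rw [witv_map hfix hR v x h1 h3] at h4; exact h4⟩

theorem card_avoid {k : ℕ} (x : Fin k → V) (hx : Function.Injective x) :
    (univ.filter fun z => ∀ i, x i ≠ z).card = Fintype.card V - k := by
  have e : (univ.filter fun z => ∀ i, x i ≠ z) = univ \ univ.image x := by
    ext z
    simp
  rw [e, card_sdiff_of_subset (subset_univ _), card_image_of_injective _ hx, card_univ, card_univ,
    Fintype.card_fin]

theorem wit_le {k : ℕ} (R : (Fin k → V) → V → Prop) (x : Fin k → V) (hx : Function.Injective x) :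
    wit R x ≤ Fintype.card V - k := by
  rw [← card_avoid x hx]
  apply card_le_card
  intro z hz
  rw [mem_filter] at hz ⊢
  exact ⟨hz.1, hz.2.1⟩

theorem fibre {k : ℕ} (R : (Fin k → V) → V → Prop) (x : Fin k → V) (hx : Function.Injective x)
    (j : ℕ) : ((univ.filter fun v => (∀ i, x i ≠ v) ∧ witv R v x = j).card : ℤ) =
      (if wit R x = j then ((Fintype.card V - k : ℕ) : ℤ) - j else 0) +
        (if wit R x = j + 1 then (j : ℤ) + 1 else 0) := by
  have hsplit : (univ.filter fun v => (∀ i, x i ≠ v) ∧ witv R v x = j) =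
      (univ.filter fun v => ((∀ i, x i ≠ v) ∧ ¬ R x v) ∧ wit R x = j) ∪
        (univ.filter fun v => ((∀ i, x i ≠ v) ∧ R x v) ∧ wit R x = j + 1) := by
    ext v
    simp only [mem_filter, mem_univ, true_and, mem_union]
    by_cases hv : ∀ i, x i ≠ v
    · have := wit_split R v x hv
      by_cases hR : R x v
      · simp only [hR, if_true, not_true_eq_false, and_false, false_and, false_or, and_true] at this ⊢
        constructor
        · rintro ⟨h1, h2⟩
          exact ⟨h1, by omega⟩
        · rintro ⟨h1, h2⟩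
          exact ⟨h1, by omega⟩
      · simp only [hR, if_false, not_false_eq_true, and_true, and_false, false_and, or_false] at this ⊢
        constructor
        · rintro ⟨h1, h2⟩
          exact ⟨h1, by omega⟩
        · rintro ⟨h1, h2⟩
          exact ⟨h1, by omega⟩
    · simp [hv]
  rw [hsplit, card_union_of_disjoint]
  · have h1 : (univ.filter fun v => (∀ i, x i ≠ v) ∧ ¬ R x v).card + wit R x =
        Fintype.card V - k := by
      rw [← card_avoid x hx]
      unfold wit
      rw [← card_union_of_disjoint]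
      · congr 1
        ext z
        simp only [mem_filter, mem_univ, true_and, mem_union]
        tauto
      · rw [Finset.disjoint_left]
        intro z hz hz'
        exact (mem_filter.mp hz).2.2 (mem_filter.mp hz').2.2
    have h2 : (univ.filter fun v => (∀ i, x i ≠ v) ∧ R x v).card = wit R x := rfl
    by_cases ha : wit R x = j
    · have hb : ¬ wit R x = j + 1 := by omega
      have e1 : (univ.filter fun v => ((∀ i, x i ≠ v) ∧ ¬ R x v) ∧ wit R x = j) =
          univ.filter fun v => (∀ i, x i ≠ v) ∧ ¬ R x v :=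
        filter_congr fun v _ => and_iff_left ha
      have e2 : (univ.filter fun v => ((∀ i, x i ≠ v) ∧ R x v) ∧ wit R x = j + 1) = ∅ :=
        filter_eq_empty_iff.mpr (fun v _ h => hb h.2)
      rw [if_pos ha, if_neg hb, e1, e2, card_empty]
      rw [ha] at h1
      omega
    · by_cases hb : wit R x = j + 1
      · have e1 : (univ.filter fun v => ((∀ i, x i ≠ v) ∧ ¬ R x v) ∧ wit R x = j) = ∅ :=
          filter_eq_empty_iff.mpr (fun v _ h => ha h.2)
        have e2 : (univ.filter fun v => ((∀ i, x i ≠ v) ∧ R x v) ∧ wit R x = j + 1) =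
            univ.filter fun v => (∀ i, x i ≠ v) ∧ R x v :=
          filter_congr fun v _ => and_iff_left hb
        rw [if_neg ha, if_pos hb, e1, e2, card_empty]
        rw [hb] at h2
        rw [h2]
        push_cast
        ring
      · have e1 : (univ.filter fun v => ((∀ i, x i ≠ v) ∧ ¬ R x v) ∧ wit R x = j) = ∅ :=
          filter_eq_empty_iff.mpr (fun v _ h => ha h.2)
        have e2 : (univ.filter fun v => ((∀ i, x i ≠ v) ∧ R x v) ∧ wit R x = j + 1) = ∅ :=
          filter_eq_empty_iff.mpr (fun v _ h => hb h.2)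
        rw [if_neg ha, if_neg hb, e1, e2, card_empty]
        simp
  · rw [Finset.disjoint_left]
    intro z hz hz'
    exact (mem_filter.mp hz).2.1.2 (mem_filter.mp hz').2.1.2

theorem sum_Nv {k : ℕ} (P : (Fin k → V) → Prop) (R : (Fin k → V) → V → Prop) (j : ℕ) :
    ((∑ v, Nv P R v j : ℕ) : ℤ) =
      (((Fintype.card V - k : ℕ) : ℤ) - j) * N P R j + ((j : ℤ) + 1) * N P R (j + 1) := by
  have h1 : ((∑ v, Nv P R v j : ℕ) : ℤ) = ∑ x ∈ univ.filter (fun x : Fin k → V =>
      Function.Injective x ∧ P x),
        ((univ.filter fun v => (∀ i, x i ≠ v) ∧ witv R v x = j).card : ℤ) := by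
    unfold Nv
    push_cast
    simp only [card_filter]
    push_cast
    rw [sum_comm, sum_filter]
    apply sum_congr rfl
    intro x _
    by_cases h : Function.Injective x ∧ P x
    · rw [if_pos h]
      apply sum_congr rfl
      intro v _
      simp [h.1, h.2]
    · rw [if_neg h]
      apply sum_eq_zero
      intro v _
      rw [if_neg]
      rintro ⟨h1, h2, _⟩
      exact h ⟨h1, h2⟩
  rw [h1, sum_congr rfl (fun x hx => fibre R x (mem_filter.mp hx).2.1 j), sum_add_distrib]
  congr 1
  · rw [← sum_filter, filter_filter, sum_const, nsmul_eq_mul, mul_comm]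
    congr 2
    unfold N
    congr 1
    ext x
    simp only [mem_filter, mem_univ, true_and]
    tauto
  · rw [← sum_filter, filter_filter, sum_const, nsmul_eq_mul, mul_comm]
    congr 2
    unfold N
    congr 1
    ext x
    simp only [mem_filter, mem_univ, true_and]
    tauto

/-- the recursion for the differences -/
theorem diff_eq {π : V → Equiv.Perm V} (hfix : ∀ v, π v v = v) {k : ℕ}
    {P P' : (Fin k → V) → Prop} {R R' : (Fin k → V) → V → Prop} (hP : Tr π P P')
    (hR : Tr2 π R R') (j : ℕ) :
    (N P R j : ℤ) - N P' R' j =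
      (-1) ^ j * ((Fintype.card V - k).choose j : ℤ) * ((N P R 0 : ℤ) - N P' R' 0) := by
  induction j with
  | zero => simp
  | succ j ih =>
    have h1 := sum_Nv P R j
    have h2 := sum_Nv P' R' j
    have h3 : ∑ v, Nv P' R' v j = ∑ v, Nv P R v j :=
      sum_congr rfl (fun v _ => Nv_eq hfix hP hR v j)
    rw [h3, h1] at h2
    have h4 : ((j : ℤ) + 1) * ((N P R (j + 1) : ℤ) - N P' R' (j + 1)) =
        -((((Fintype.card V - k : ℕ) : ℤ) - j) * ((N P R j : ℤ) - N P' R' j)) := by
      linarith
    rw [ih] at h4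
    set m := Fintype.card V - k with hm
    have h5 : (m.choose (j + 1) : ℤ) * ((j : ℤ) + 1) = (m.choose j : ℤ) * ((m : ℤ) - j) := by
      rcases le_or_gt j m with h | h
      · have := Nat.choose_succ_right_eq m j
        have h6 : ((m - j : ℕ) : ℤ) = (m : ℤ) - j := by push_cast [h]; ring
        rw [← h6]
        exact_mod_cast this
      · rw [Nat.choose_eq_zero_of_lt h, Nat.choose_eq_zero_of_lt (by omega : m < j + 1)]
        simp
    have h7 : ((j : ℤ) + 1) ≠ 0 := by positivity
    apply mul_left_cancel₀ h7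
    rw [h4, pow_succ]
    linear_combination (-(-1) ^ j * ((N P R 0 : ℤ) - N P' R' 0)) * (-h5)

/-- the condition under which the numbers are the same -/
def Bd {k : ℕ} (P P' : (Fin k → V) → Prop) (R R' : (Fin k → V) → V → Prop) : Prop :=
  2 * Fintype.card V ^ k < 2 ^ (Fintype.card V - k) ∨
    (N P R (Fintype.card V - k) = 0 ∧ N P' R' (Fintype.card V - k) = 0)

theorem N_eq {π : V → Equiv.Perm V} (hfix : ∀ v, π v v = v) {k : ℕ}
    {P P' : (Fin k → V) → Prop} {R R' : (Fin k → V) → V → Prop} (hP : Tr π P P')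
    (hR : Tr2 π R R') (hB : Bd P P' R R') (j : ℕ) : N P' R' j = N P R j := by
  have hd := diff_eq hfix hP hR
  set m := Fintype.card V - k with hm
  have h0 : (N P R 0 : ℤ) - N P' R' 0 = 0 := by
    rcases hB with hB | ⟨hB1, hB2⟩
    · by_contra hne
      have h1 : ∀ i, (m.choose i : ℤ) ≤ (N P R i : ℤ) + N P' R' i := by
        intro i
        have h2 := congrArg abs (hd i)
        rw [abs_mul, abs_mul, abs_pow, abs_neg, abs_one, one_pow, one_mul, Nat.abs_cast] at h2
        have h3 : (1 : ℤ) ≤ |(N P R 0 : ℤ) - N P' R' 0| := Int.one_le_abs hne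
        have h4 : (m.choose i : ℤ) ≤ (m.choose i : ℤ) * |(N P R 0 : ℤ) - N P' R' 0| :=
          le_mul_of_one_le_right (by positivity) h3
        have h5 : |(N P R i : ℤ) - N P' R' i| ≤ (N P R i : ℤ) + N P' R' i := by
          rw [abs_le]
          constructor
          · have : (0 : ℤ) ≤ N P R i := by positivity
            linarith
          · have : (0 : ℤ) ≤ N P' R' i := by positivity
            linarith
        linarith
      have tot : ∀ (Q : (Fin k → V) → Prop) (S : (Fin k → V) → V → Prop),
          ∑ i ∈ range (m + 1), N Q S i ≤ Fintype.card V ^ k := by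
        intro Q S
        unfold N
        rw [← card_biUnion]
        · refine (card_le_univ _).trans ?_
          rw [Fintype.card_fun, Fintype.card_fin]
        · intro a _ b _ hab
          rw [Function.onFun, Finset.disjoint_left]
          intro x hx hx'
          exact hab ((mem_filter.mp hx).2.2.2.symm.trans (mem_filter.mp hx').2.2.2)
      have h6 : ((2 ^ m : ℕ) : ℤ) ≤ ∑ i ∈ range (m + 1), ((N P R i : ℤ) + N P' R' i) := by
        rw [← Nat.sum_range_choose m]
        push_cast
        exact sum_le_sum (fun i _ => h1 i)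
      rw [sum_add_distrib] at h6
      have h7 := tot P R
      have h8 := tot P' R'
      have h9 : ((2 ^ m : ℕ) : ℤ) ≤ ((2 * Fintype.card V ^ k : ℕ) : ℤ) := by
        push_cast at h6 ⊢
        have h7' : (∑ i ∈ range (m + 1), (N P R i : ℤ)) ≤ (Fintype.card V : ℤ) ^ k := by
          exact_mod_cast h7
        have h8' : (∑ i ∈ range (m + 1), (N P' R' i : ℤ)) ≤ (Fintype.card V : ℤ) ^ k := by
          exact_mod_cast h8
        linarith
      have h10 : 2 ^ m ≤ 2 * Fintype.card V ^ k := by exact_mod_cast h9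
      exact absurd hB (not_lt.mpr h10)
    · have h1 := hd m
      rw [hB1, hB2, Nat.choose_self] at h1
      simp only [Nat.cast_zero, sub_self, Nat.cast_one, mul_one] at h1
      rcases mul_eq_zero.mp h1.symm with h2 | h2
      · exact absurd h2 (pow_ne_zero _ (by norm_num))
      · exact h2
  have h1 := hd j
  rw [h0, mul_zero] at h1
  omega

/-- `e` is a gap -/
def Gap {k : ℕ} (P : (Fin k → V) → Prop) (R : (Fin k → V) → V → Prop) (e : ℕ) : Prop :=
  ∀ x : Fin k → V, Function.Injective x → P x → wit R x ≠ e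

theorem gap_iff {k : ℕ} (P : (Fin k → V) → Prop) (R : (Fin k → V) → V → Prop) (e : ℕ) :
    Gap P R e ↔ N P R e = 0 := by
  unfold Gap N
  rw [card_eq_zero, filter_eq_empty_iff]
  constructor
  · rintro h x _ ⟨h1, h2, h3⟩
    exact h x h1 h2 h3
  · intro h x h1 h2 h3
    exact h (mem_univ x) ⟨h1, h2, h3⟩

theorem gap_tr {π : V → Equiv.Perm V} (hfix : ∀ v, π v v = v) {k : ℕ}
    {P P' : (Fin k → V) → Prop} {R R' : (Fin k → V) → V → Prop} (hP : Tr π P P')
    (hR : Tr2 π R R') (hB : Bd P P' R R') {e : ℕ} (hg : Gap P R e) : Gap P' R' e := by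
  rw [gap_iff] at hg ⊢
  rw [N_eq hfix hP hR hB, hg]

/-- the relation given by a gap corresponds -/
theorem tr_gap {π : V → Equiv.Perm V} (hfix : ∀ v, π v v = v) {k : ℕ}
    {P P' : (Fin k → V) → Prop} {R R' : (Fin k → V) → V → Prop} (hP : Tr π P P')
    (hR : Tr2 π R R') (hB : Bd P P' R R') {e : ℕ} (hg : Gap P R e) :
    Tr π (fun x => P x ∧ e < wit R x) (fun x => P' x ∧ e < wit R' x) := by
  intro v x hx hv
  have hg' := gap_tr hfix hP hR hB hg
  have hx' : Function.Injective (π v ∘ x) := (π v).injective.comp hx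
  have hv' : ∀ i, (π v ∘ x) i ≠ v := by
    intro i h
    exact hv i ((π v).injective (by rw [hfix]; exact h))
  show (P' (π v ∘ x) ∧ e < wit R' (π v ∘ x)) ↔ (P x ∧ e < wit R x)
  rw [hP v x hx hv]
  refine and_congr_right fun hPx => ?_
  have h1 := hg x hx hPx
  have h2 := hg' _ hx' ((hP v x hx hv).mpr hPx)
  have h3 := wit_split R v x hv
  have h4 := wit_split R' v (π v ∘ x) hv'
  rw [witv_map hfix hR v x hx hv] at h4
  split_ifs at h3 h4 <;> omega

/-- a witness which is recognised -/
theorem pin {π : V → Equiv.Perm V} (hfix : ∀ v, π v v = v) {k : ℕ}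
    {P P' : (Fin k → V) → Prop} {R R' : (Fin k → V) → V → Prop} (hP : Tr π P P')
    (hR : Tr2 π R R') (hB : Bd P P' R R') {e : ℕ} (hg : Gap P R e) (v : V) (x : Fin k → V)
    (hx : Function.Injective x) (hv : ∀ i, x i ≠ v) (hPx : P x) (hw : wit R x = e + 1)
    (hRv : R x v) : R' (π v ∘ x) v := by
  have hg' := gap_tr hfix hP hR hB hg
  have hx' : Function.Injective (π v ∘ x) := (π v).injective.comp hx
  have hv' : ∀ i, (π v ∘ x) i ≠ v := by
    intro i h
    exact hv i ((π v).injective (by rw [hfix]; exact h))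
  have h2 := hg' _ hx' ((hP v x hx hv).mpr hPx)
  have h3 := wit_split R v x hv
  have h4 := wit_split R' v (π v ∘ x) hv'
  rw [witv_map hfix hR v x hx hv] at h4
  rw [if_pos hRv] at h3
  by_contra hcon
  rw [if_neg hcon] at h4
  omega

end Pool.Agent.Run7.h110.RG
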