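import Pool.Agent.Run7.h110.RG.Core

set_option autoImplicit false
set_option linter.unusedSectionVars false

/-!
# Joins, and the final argument
-/

namespace Pool.Agent.Run7.h110.RG

open Finset Classical
open Pool.Agent.H234RC (Hypo NonIso Reconstructible)
open Pool.Agent.TH87.RVC (mem_iff_of_maps)
open Pool.Agent.R694.RC

variable {V : Type} [Fintype V] {G H : SimpleGraph V} {π : V → Equiv.Perm V}

theorem hypo_symm (hH : Hypo G H π) : Hypo H G (fun v => (π v).symm) where
  fix := fun v => by rw [Equiv.symm_apply_eq, hH.fix]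
  adj := fun v x y hx hy => by
    have h1 : (π v).symm x ≠ v := by
      intro h
      rw [Equiv.symm_apply_eq, hH.fix] at h
      exact hx h
    have h2 : (π v).symm y ≠ v := by
      intro h
      rw [Equiv.symm_apply_eq, hH.fix] at h
      exact hy h
    have := hH.adj v _ _ h1 h2
    rw [Equiv.apply_symm_apply, Equiv.apply_symm_apply] at this
    exact this.symm

theorem nonIso_symm (hN : NonIso G H) : NonIso H G := by
  rintro ⟨σ, hσ⟩
  apply hN
  refine ⟨σ.symm, fun x y => ?_⟩
  have := hσ (σ.symm x) (σ.symm y)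
  rw [Equiv.apply_symm_apply, Equiv.apply_symm_apply] at this
  exact this.symm

theorem nojoin (hV : 3 ≤ Fintype.card V) (hH : Hypo G H π) (hN : NonIso G H) (W : Finset V)
    (h1 : W.Nonempty) (h2 : (univ \ W).Nonempty) :
    ¬ (∀ x ∈ W, ∀ y ∈ univ \ W, G.Adj x y) ∧ ¬ (∀ x ∈ W, ∀ y ∈ univ \ W, Gᶜ.Adj x y) := by
  constructor
  · intro h
    exact fin2 hH (inv_start hV) W (subset_univ _) h1 h2
      (fun x hx y hy x' hx' y' hy' _ => ⟨fun _ => h x' hx' y' hy', fun _ => h x hx y hy⟩) hN
  · intro h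
    refine fin2 hH (inv_start hV) W (subset_univ _) h1 h2
      (fun x hx y hy x' hx' y' hy' _ => ⟨fun h' => ?_, fun h' => ?_⟩) hN
    · exact absurd h' ((G.compl_adj _ _).mp (h x hx y hy)).2
    · exact absurd h' ((G.compl_adj _ _).mp (h x' hx' y' hy')).2

theorem lt_card {k : ℕ} (x : Fin k → V) (hx : Function.Injective x) (v : V)
    (hv : ∀ i, x i ≠ v) : k < Fintype.card V := by
  have h1 := card_avoid x hx
  have h2 : 0 < (univ.filter fun z => ∀ i, x i ≠ z).card :=
    card_pos.mpr ⟨v, mem_filter.mpr ⟨mem_univ _, hv⟩⟩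
  omega

/-- if the witnesses are joined to the tuples, then not all vertices are witnesses -/
theorem join_zero (hV : 3 ≤ Fintype.card V) (hH : Hypo G H π) (hN : NonIso G H)
    {K : SimpleGraph V} (hK : K = G ∨ K = Gᶜ) {k : ℕ} (hk : 0 < k) (hkn : k < Fintype.card V)
    {P : (Fin k → V) → Prop} {R : (Fin k → V) → V → Prop}
    (hj : ∀ x z, R x z → ∀ i, K.Adj (x i) z) : N P R (Fintype.card V - k) = 0 := by
  rw [← gap_iff]
  intro x hx _ hw
  have h1 : (univ.filter fun z => (∀ i, x i ≠ z) ∧ R x z) =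
      univ.filter fun z => ∀ i, x i ≠ z := by
    apply eq_of_subset_of_card_le
    · intro z hz
      exact mem_filter.mpr ⟨mem_univ _, (mem_filter.mp hz).2.1⟩
    · rw [card_avoid x hx]
      exact hw.ge
  have h2 : ∀ z, (∀ i, x i ≠ z) → ∀ i, K.Adj (x i) z := by
    intro z hz
    have : z ∈ univ.filter fun z => (∀ i, x i ≠ z) ∧ R x z := by
      rw [h1]; exact mem_filter.mpr ⟨mem_univ _, hz⟩
    exact hj x z (mem_filter.mp this).2.2
  have h3 := nojoin hV hH hN (univ.image x) ⟨x ⟨0, hk⟩, mem_image.mpr ⟨_, mem_univ _, rfl⟩⟩ (by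
    rw [← card_pos, card_sdiff_of_subset (subset_univ _), card_image_of_injective _ hx, card_univ,
      card_univ, Fintype.card_fin]
    omega)
  have h4 : ∀ a ∈ univ.image x, ∀ y ∈ univ \ univ.image x, K.Adj a y := by
    intro a ha y hy
    obtain ⟨i, _, rfl⟩ := mem_image.mp ha
    apply h2
    intro j hj
    exact (mem_sdiff.mp hy).2 (mem_image.mpr ⟨j, mem_univ _, hj⟩)
  rcases hK with rfl | rfl
  · exact h3.1 h4
  · exact h3.2 h4

theorem bd_join (hV : 3 ≤ Fintype.card V) (hH : Hypo G H π) (hN : NonIso G H)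
    {K K' : SimpleGraph V} (hK : (K = G ∧ K' = H) ∨ (K = Gᶜ ∧ K' = Hᶜ)) {k : ℕ} (hk : 0 < k)
    (hkn : k < Fintype.card V) {P P' : (Fin k → V) → Prop} {R R' : (Fin k → V) → V → Prop}
    (hj : ∀ x z, R x z → ∀ i, K.Adj (x i) z) (hj' : ∀ x z, R' x z → ∀ i, K'.Adj (x i) z) :
    Bd P P' R R' := by
  right
  constructor
  · exact join_zero hV hH hN (hK.imp And.left And.left) hk hkn hj
  · exact join_zero hV (hypo_symm hH) (nonIso_symm hN) (hK.imp And.right And.right) hk hkn hj'

theorem adj_tr (hH : Hypo G H π) {K K' : SimpleGraph V}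
    (hK : (K = G ∧ K' = H) ∨ (K = Gᶜ ∧ K' = Hᶜ)) (v x y : V) (hx : x ≠ v) (hy : y ≠ v) :
    K'.Adj (π v x) (π v y) ↔ K.Adj x y := by
  rcases hK with ⟨rfl, rfl⟩ | ⟨rfl, rfl⟩
  · exact hH.adj v x y hx hy
  · rw [SimpleGraph.compl_adj, SimpleGraph.compl_adj, hH.adj v x y hx hy, (π v).injective.ne_iff]

/-- the degree -/
noncomputable def dg (G : SimpleGraph V) (x : V) : ℕ := (univ.filter (fun y => G.Adj x y)).card

theorem dg_eq (x : V) : dg G x = nbrs G univ (fun _ => 0) Set.univ x := by
  unfold dg nbrs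
  congr 1
  ext y
  simp

theorem dg_step (hV : 3 ≤ Fintype.card V) (hH : Hypo G H π) (v x : V) (hxv : x ≠ v) :
    dg G (π v x) + (if G.Adj x v then 1 else 0) = dg G x + (if H.Adj (π v x) v then 1 else 0) := by
  have := nbrs_step hH (inv_start hV) Set.univ v (mem_univ v) x (mem_univ x) hxv
  simpa [dg_eq] using this

theorem assemble (hV : 3 ≤ Fintype.card V) (hH : Hypo G H π) (v : V) (p q : V → Prop)
    (h1 : ∀ x, G.Adj v x → p x → H.Adj (π v x) v)
    (h2 : ∀ x, x ≠ v → ¬ G.Adj v x → q x → ¬ H.Adj (π v x) v)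
    (h3 : ∀ x y, G.Adj v x → y ≠ v → ¬ G.Adj v y → p x ∨ q y ∨ dg G x ≠ dg G y + 1) :
    ¬ NonIso G H := by
  have hπ : ∀ x, x ≠ v → π v x ≠ v := by
    intro x hx h
    exact hx ((π v).injective (by rw [h, hH.fix]))
  have st := fun x hx => dg_step hV hH v x hx
  have key : ∀ x, x ≠ v → (H.Adj (π v x) v ↔ G.Adj x v) := by
    intro x0 hx0v
    have s0 := st x0 hx0v
    by_contra hcon
    by_cases hG : G.Adj x0 v
    · have hHn : ¬ H.Adj (π v x0) v := fun h => hcon ⟨fun _ => hG, fun _ => h⟩
      have hp : ¬ p x0 := fun h => hHn (h1 x0 hG.symm h)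
      rw [if_pos hG, if_neg hHn] at s0
      set s := dg G (π v x0) with hs
      have hm : ∀ y ∈ univ.filter (fun y => y ≠ v ∧ dg G y ≤ s),
          π v y ∈ univ.filter (fun y => y ≠ v ∧ dg G y ≤ s) := by
        intro y hy
        obtain ⟨_, hyv, hys⟩ := mem_filter.mp hy
        refine mem_filter.mpr ⟨mem_univ _, hπ y hyv, ?_⟩
        by_contra hlt
        have s1 := st y hyv
        have hyG : ¬ G.Adj y v := by
          intro h
          rw [if_pos h] at s1
          split_ifs at s1 <;> omega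
        have hyH : H.Adj (π v y) v := by
          by_contra h
          rw [if_neg hyG, if_neg h] at s1
          omega
        rw [if_neg hyG, if_pos hyH] at s1
        have h5 : dg G y = s := by omega
        rcases h3 x0 y hG.symm hyv (fun h => hyG h.symm) with h | h | h
        · exact hp h
        · exact h2 y hyv (fun h => hyG h.symm) h hyH
        · exact h (by omega)
      have h6 := mem_iff_of_maps (π v) _ hm x0
      have h7 := h6.mp (mem_filter.mpr ⟨mem_univ _, hπ x0 hx0v, le_refl s⟩)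
      have h8 := (mem_filter.mp h7).2.2
      omega
    · have hHp : H.Adj (π v x0) v := by
        by_contra h
        exact hcon ⟨fun h' => absurd h' h, fun h' => absurd h' hG⟩
      have hq : ¬ q x0 := fun h => h2 x0 hx0v (fun h => hG h.symm) h hHp
      rw [if_neg hG, if_pos hHp] at s0
      set s := dg G x0 with hs
      have hm : ∀ y ∈ univ.filter (fun y => y ≠ v ∧ s < dg G y),
          π v y ∈ univ.filter (fun y => y ≠ v ∧ s < dg G y) := by
        intro y hy
        obtain ⟨_, hyv, hys⟩ := mem_filter.mp hy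
        refine mem_filter.mpr ⟨mem_univ _, hπ y hyv, ?_⟩
        by_contra hlt
        have s1 := st y hyv
        have hyG : G.Adj y v := by
          by_contra h
          rw [if_neg h] at s1
          split_ifs at s1 <;> omega
        have hyH : ¬ H.Adj (π v y) v := by
          intro h
          rw [if_pos hyG, if_pos h] at s1
          omega
        rw [if_pos hyG, if_neg hyH] at s1
        have h5 : dg G y = s + 1 := by omega
        rcases h3 y x0 hyG.symm hx0v (fun h => hG h.symm) with h | h | h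
        · exact hyH (h1 y hyG.symm h)
        · exact hq h
        · exact h h5
      have h6 := mem_iff_of_maps (π v) _ hm x0
      have h7 := h6.mp (mem_filter.mpr ⟨mem_univ _, hπ x0 hx0v, by omega⟩)
      have h8 := (mem_filter.mp h7).2.2
      omega
  intro hN
  apply hN
  have hv' : ∀ y, (H.Adj v (π v y) ↔ G.Adj v y) := by
    intro y
    by_cases hyv : y = v
    · rw [hyv, hH.fix]
      exact ⟨fun h => absurd h H.irrefl, fun h => absurd h G.irrefl⟩
    · rw [H.adj_comm, G.adj_comm]
      exact key y hyv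
  refine ⟨π v, fun x y => ?_⟩
  by_cases hx : x = v
  · rw [hx, hH.fix]
    exact hv' y
  · by_cases hy : y = v
    · rw [hy, hH.fix, H.adj_comm, G.adj_comm]
      exact hv' x
    · exact hH.adj v x y hx hy

end Pool.Agent.Run7.h110.RG
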